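import Pool.Agent.H96.RG.EHMO

/-!
# Regularity of weakly harmonic maps, part E: bilinear maps and the classes
-/

namespace Pool.Agent.H96.RG

open MeasureTheory Metric Set Filter Topology Pool.Agent.H87.SN Pool.Agent.H70.RG
open scoped ContDiff

theorem lh_bilin {n : ℕ} {F F' H : Type} [NormedAddCommGroup F] [NormedSpace ℝ F]
    [NormedAddCommGroup F'] [NormedSpace ℝ F'] [NormedAddCommGroup H] [NormedSpace ℝ H]
    (B : F →L[ℝ] F' →L[ℝ] H) (U : Set (E n)) (v : E n → F) (w : E n → F') (hv : LH v U)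
    (hw : LH w U) : LH (fun x => B (v x) (w x)) U := by
  intro x hx
  obtain ⟨r1, C1, γ1, hr1, hC1, hγ1, hγ1', hb1, h1⟩ := hv x hx
  obtain ⟨r2, C2, γ2, hr2, hC2, hγ2, hγ2', hb2, h2⟩ := hw x hx
  have e1 : ∀ᶠ y in 𝓝 x, ‖v y‖ < ‖v x‖ + 1 :=
    (lh_cont v U hv x hx).norm.eventually_lt_const (lt_add_one _)
  have e2 : ∀ᶠ y in 𝓝 x, ‖w y‖ < ‖w x‖ + 1 :=
    (lh_cont w U hw x hx).norm.eventually_lt_const (lt_add_one _)
  have e3 : ∀ᶠ y in 𝓝 x, y ∈ ball x r1 := ball_mem_nhds x hr1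
  have e4 : ∀ᶠ y in 𝓝 x, y ∈ ball x r2 := ball_mem_nhds x hr2
  have e5 : ∀ᶠ y in 𝓝 x, y ∈ ball x (1 / 2) := ball_mem_nhds x (by norm_num)
  obtain ⟨r, hr, hb⟩ := Metric.mem_nhds_iff.1 (e1.and (e2.and (e3.and (e4.and e5))))
  refine ⟨r, ‖B‖ * (C1 * (‖w x‖ + 1) + (‖v x‖ + 1) * C2), min γ1 γ2, hr, by positivity,
    lt_min hγ1 hγ2, (min_le_left _ _).trans hγ1', fun y hy => hb1 (hb hy).2.2.1, ?_⟩
  intro y hy z hz
  obtain ⟨y1, y2, y3, y4, y5⟩ := hb hy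
  obtain ⟨z1, z2, z3, z4, z5⟩ := hb hz
  have hyz : ‖y - z‖ ≤ 1 := by
    rw [← dist_eq_norm]
    have h3 := dist_triangle_right y z x
    rw [mem_ball] at y5 z5
    linarith
  have g1 : ‖y - z‖ ^ γ1 ≤ ‖y - z‖ ^ (min γ1 γ2) :=
    Real.rpow_le_rpow_of_exponent_ge' (norm_nonneg _) hyz (lt_min hγ1 hγ2).le (min_le_left _ _)
  have g2 : ‖y - z‖ ^ γ2 ≤ ‖y - z‖ ^ (min γ1 γ2) :=
    Real.rpow_le_rpow_of_exponent_ge' (norm_nonneg _) hyz (lt_min hγ1 hγ2).le (min_le_right _ _)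
  have k1 : ‖v y - v z‖ ≤ C1 * ‖y - z‖ ^ (min γ1 γ2) :=
    (h1 y y3 z z3).trans (mul_le_mul_of_nonneg_left g1 hC1)
  have k2 : ‖w y - w z‖ ≤ C2 * ‖y - z‖ ^ (min γ1 γ2) :=
    (h2 y y4 z z4).trans (mul_le_mul_of_nonneg_left g2 hC2)
  have hp : 0 ≤ ‖y - z‖ ^ (min γ1 γ2) := by positivity
  have hs : B (v y) (w y) - B (v z) (w z) = B (v y - v z) (w y) + B (v z) (w y - w z) := by
    rw [map_sub, map_sub, sub_apply]
    abel
  rw [hs]
  calc ‖B (v y - v z) (w y) + B (v z) (w y - w z)‖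
      ≤ ‖B (v y - v z) (w y)‖ + ‖B (v z) (w y - w z)‖ := norm_add_le _ _
    _ ≤ ‖B‖ * ‖v y - v z‖ * ‖w y‖ + ‖B‖ * ‖v z‖ * ‖w y - w z‖ :=
        add_le_add (B.le_opNorm₂ _ _) (B.le_opNorm₂ _ _)
    _ ≤ ‖B‖ * (C1 * ‖y - z‖ ^ (min γ1 γ2)) * (‖w x‖ + 1) +
        ‖B‖ * (‖v x‖ + 1) * (C2 * ‖y - z‖ ^ (min γ1 γ2)) := by
        refine add_le_add ?_ ?_
        · refine mul_le_mul (mul_le_mul_of_nonneg_left k1 B.opNorm_nonneg) y2.le (norm_nonneg _)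
            (by positivity)
        · refine mul_le_mul (mul_le_mul_of_nonneg_left z1.le B.opNorm_nonneg) k2 (norm_nonneg _)
            (by positivity)
    _ = ‖B‖ * (C1 * (‖w x‖ + 1) + (‖v x‖ + 1) * C2) * ‖y - z‖ ^ (min γ1 γ2) := by ring

theorem pf_HBI (h0 : T_HLO) (h1 : T_HMO) (h2 : T_HAL) : T_HBI := by
  intro n F F' H _ _ _ _ _ _ B j
  induction j with
  | zero =>
    intro U v w hU hv hw
    exact lh_bilin B U v w hv hw
  | succ j ih =>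
    intro U v w hU hv hw
    have hd : ∀ x ∈ U, ∀ e : E n, fderiv ℝ (fun x => B (v x) (w x)) x e =
        B (fderiv ℝ v x e) (w x) + B (v x) (fderiv ℝ w x e) := by
      intro x hx e
      have h3 := B.hasFDerivAt_of_bilinear (hv.1 x hx).hasFDerivAt (hw.1 x hx).hasFDerivAt
      rw [h3.fderiv]
      exact add_comm (B (v x) (fderiv ℝ w x e)) (B (fderiv ℝ v x e) (w x))
    refine ⟨fun x hx => ?_, fun i => ?_⟩
    · exact (B.hasFDerivAt_of_bilinear (hv.1 x hx).hasFDerivAt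
        (hw.1 x hx).hasFDerivAt).differentiableAt
    · have hv' : HH j v U := (h1 n F j v U hU).1 hv
      have hw' : HH j w U := (h1 n F' j w U hU).1 hw
      have h4 := ih U _ _ hU (hv.2 i) hw'
      have h5 := ih U _ _ hU hv' (hw.2 i)
      have h6 := (h2 n H H j U hU).1 _ _ h4 h5
      refine (h0 n H j).2.1 _ _ U hU (fun x hx => ?_) h6
      exact (hd x hx (bv i)).symm

end Pool.Agent.H96.RG
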