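import Pool.Agent.H96.RG.EHMO

/-!
# Regularity of weakly harmonic maps, part E: smooth functions of members of the classes
-/

namespace Pool.Agent.H96.RG

open MeasureTheory Metric Set Filter Topology Pool.Agent.H87.SN Pool.Agent.H70.RG
open scoped ContDiff NNReal

theorem lh_comp {n : ℕ} {F F' : Type} [NormedAddCommGroup F] [NormedSpace ℝ F]
    [NormedAddCommGroup F'] [NormedSpace ℝ F'] (U : Set (E n)) (Φ : F → F') (v : E n → F)
    (hΦ : ContDiff ℝ ∞ Φ) (hv : LH v U) : LH (fun x => Φ (v x)) U := by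
  intro x hx
  obtain ⟨r1, C1, γ1, hr1, hC1, hγ1, hγ1', hb1, h1⟩ := hv x hx
  have h9 : ContDiffAt ℝ 1 Φ (v x) := (hΦ.of_le (by exact_mod_cast le_top)).contDiffAt
  obtain ⟨K, s, hs, hK⟩ := h9.exists_lipschitzOnWith
  have e1 : ∀ᶠ y in 𝓝 x, v y ∈ s := (lh_cont v U hv x hx).tendsto hs
  have e3 : ∀ᶠ y in 𝓝 x, y ∈ ball x r1 := ball_mem_nhds x hr1
  obtain ⟨r, hr, hb⟩ := Metric.mem_nhds_iff.1 (e1.and e3)
  refine ⟨r, K * C1, γ1, hr, by positivity, hγ1, hγ1', fun y hy => hb1 (hb hy).2, ?_⟩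
  intro y hy z hz
  obtain ⟨y1, y2⟩ := hb hy
  obtain ⟨z1, z2⟩ := hb hz
  have h3 := hK.dist_le_mul _ y1 _ z1
  rw [dist_eq_norm, dist_eq_norm] at h3
  calc ‖Φ (v y) - Φ (v z)‖ ≤ K * ‖v y - v z‖ := h3
    _ ≤ K * (C1 * ‖y - z‖ ^ γ1) := mul_le_mul_of_nonneg_left (h1 y y2 z z2) K.2
    _ = K * C1 * ‖y - z‖ ^ γ1 := by ring

theorem pf_HCO (h0 : T_HLO) (h1 : T_HMO) (h3 : T_HBI) : T_HCO := by
  intro n j
  induction j with
  | zero =>
    intro U hU F F' _ _ _ _ _ Φ v hΦ hv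
    exact lh_comp U Φ v hΦ hv
  | succ j ih =>
    intro U hU F F' _ _ _ _ _ Φ v hΦ hv
    have hΦd : ∀ y, DifferentiableAt ℝ Φ y := fun y => (hΦ.differentiable (by simp)) y
    have hd : ∀ x ∈ U, ∀ e : E n, fderiv ℝ (fun x => Φ (v x)) x e =
        fderiv ℝ Φ (v x) (fderiv ℝ v x e) := by
      intro x hx e
      have h4 := (hΦd (v x)).hasFDerivAt.comp x (hv.1 x hx).hasFDerivAt
      have h5 : fderiv ℝ (fun x => Φ (v x)) x = (fderiv ℝ Φ (v x)).comp (fderiv ℝ v x) :=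
        h4.fderiv
      rw [h5]
      rfl
    refine ⟨fun x hx => ?_, fun i => ?_⟩
    · exact (hΦd (v x)).comp x (hv.1 x hx)
    · have hv' : HH j v U := (h1 n F j v U hU).1 hv
      have hΦ' : ContDiff ℝ ∞ (fderiv ℝ Φ) := hΦ.fderiv_right (by simp)
      have h4 : HH j (fun x => fderiv ℝ Φ (v x)) U := ih U hU F (F →L[ℝ] F') (fderiv ℝ Φ) v hΦ' hv'
      have h5 := h3 n (F →L[ℝ] F') F F' (ContinuousLinearMap.id ℝ (F →L[ℝ] F')) j U
        (fun x => fderiv ℝ Φ (v x)) (fun x => fderiv ℝ v x (bv i)) hU h4 (hv.2 i)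
      refine (h0 n F' j).2.1 _ _ U hU (fun x hx => ?_) h5
      exact (hd x hx (bv i)).symm

end Pool.Agent.H96.RG
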