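import Pool.Agent.H70.RG.Targets

/-!
# Regularity of weakly harmonic maps, part E: the classes are monotone, continuity
-/

namespace Pool.Agent.H96.RG

open MeasureTheory Metric Set Filter Topology Pool.Agent.H87.SN Pool.Agent.H70.RG
open scoped ContDiff

theorem lh_cont {n : ℕ} {F : Type} [NormedAddCommGroup F] (v : E n → F) (U : Set (E n))
    (h : LH v U) : ∀ x ∈ U, ContinuousAt v x := by
  intro x hx
  obtain ⟨r, C, γ, hr, hC, hγ, hγ1, hb, hv⟩ := h x hx
  have h1 : Tendsto (fun y => C * ‖y - x‖ ^ γ) (𝓝 x) (𝓝 0) := by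
    have h2 : ContinuousAt (fun y : E n => C * ‖y - x‖ ^ γ) x := by
      refine ContinuousAt.mul continuousAt_const ?_
      exact ContinuousAt.rpow_const (by fun_prop) (Or.inr hγ.le)
    have h3 := h2.tendsto
    simpa [Real.zero_rpow hγ.ne'] using h3
  rw [ContinuousAt, tendsto_iff_norm_sub_tendsto_zero]
  refine squeeze_zero' (Eventually.of_forall fun _ => norm_nonneg _) ?_ h1
  filter_upwards [ball_mem_nhds x hr] with y hy
  exact hv y hy x (mem_ball_self hr)

theorem opn_le {n : ℕ} {F : Type} [NormedAddCommGroup F] [NormedSpace ℝ F] (L : E n →L[ℝ] F) :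
    ‖L‖ ≤ ∑ i : Fin n, ‖L (bv i)‖ := by
  refine ContinuousLinearMap.opNorm_le_bound L (Finset.sum_nonneg fun _ _ => norm_nonneg _)
    fun x => ?_
  have hx : x = ∑ i : Fin n, x i • (bv i : E n) := by
    ext j
    simp [bv, Finset.sum_apply, Pi.single_apply]
  have h1 : L x = ∑ i : Fin n, x i • L (bv i) := by
    conv_lhs => rw [hx, map_sum]
    simp
  rw [h1, Finset.sum_mul]
  refine (norm_sum_le _ _).trans (Finset.sum_le_sum fun i _ => ?_)
  rw [norm_smul, mul_comm]
  exact mul_le_mul_of_nonneg_left (PiLp.norm_apply_le x i) (norm_nonneg _)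

theorem lh_of_partials {n : ℕ} {F : Type} [NormedAddCommGroup F] [NormedSpace ℝ F]
    (v : E n → F) (U : Set (E n)) (hU : IsOpen U) (hd : ∀ x ∈ U, DifferentiableAt ℝ v x)
    (hc : ∀ i : Fin n, ∀ x ∈ U, ContinuousAt (fun x => fderiv ℝ v x (bv i)) x) : LH v U := by
  intro x hx
  have h1 : ∀ᶠ y in 𝓝 x, ∀ i : Fin n, ‖fderiv ℝ v y (bv i)‖ < ‖fderiv ℝ v x (bv i)‖ + 1 := by
    rw [eventually_all]
    intro i
    have h2 : ContinuousAt (fun y => ‖fderiv ℝ v y (bv i)‖) x := (hc i x hx).norm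
    exact h2.eventually_lt_const (lt_add_one _)
  have h2 : ∀ᶠ y in 𝓝 x, y ∈ U := hU.mem_nhds hx
  obtain ⟨r, hr, hb⟩ := Metric.mem_nhds_iff.1 (h1.and h2)
  refine ⟨r, ∑ i : Fin n, (‖fderiv ℝ v x (bv i)‖ + 1), 1, hr,
    Finset.sum_nonneg fun _ _ => by positivity, one_pos, le_rfl, fun y hy => (hb hy).2, ?_⟩
  intro y hy z hz
  rw [Real.rpow_one]
  refine Convex.norm_image_sub_le_of_norm_fderiv_le (𝕜 := ℝ) (fun w hw => hd w (hb hw).2)
    (fun w hw => ?_) (convex_ball x r) hz hy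
  exact (opn_le _).trans (Finset.sum_le_sum fun i _ => ((hb hw).1 i).le)

theorem pf_HMO (_ : T_HLO) : T_HMO := by
  intro n F _ _ j
  induction j with
  | zero =>
    intro v U hU
    refine ⟨fun h => ?_, fun h x hx => (lh_cont v U h x hx).continuousWithinAt⟩
    exact lh_of_partials v U hU h.1 fun i => lh_cont _ U (h.2 i)
  | succ j ih =>
    intro v U hU
    refine ⟨fun h => ⟨h.1, fun i => (ih _ U hU).1 (h.2 i)⟩, fun h x hx => ?_⟩
    exact (h.1 x hx).continuousAt.continuousWithinAt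

end Pool.Agent.H96.RG
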