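import Pool.Agent.H70.RG.Targets

/-!
# Regularity of weakly harmonic maps, part E: smoothness
-/

namespace Pool.Agent.H96.RG

open MeasureTheory Metric Set Filter Topology Pool.Agent.H87.SN Pool.Agent.H70.RG
open scoped ContDiff

theorem int_smul {n : ℕ} {F : Type} [NormedAddCommGroup F] [NormedSpace ℝ F] (φ : E n → ℝ)
    (w : E n → F) (U : Set (E n)) (hφ : TF U φ) (hw : ContinuousOn w U) :
    Integrable (fun x => φ x • w x) := by
  have h1 : IntegrableOn (fun x => φ x • w x) (tsupport φ) volume :=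
    (hφ.1.continuous.continuousOn.smul (hw.mono hφ.2.2)).integrableOn_compact hφ.2.1
  refine (integrableOn_iff_integrable_of_support_subset ?_).1 h1
  intro x hx
  refine subset_tsupport φ fun h => hx ?_
  simp [h]

theorem pf_SYS (_ : T_HLO) (h1 : T_HMO) (h2 : T_HAL) (h3 : T_HBI) (h4 : T_HCO) (h5 : T_HCD)
    (h6 : T_IBP) (h7 : T_BOO) : T_SYS := by
  intro n m A U u hA hU hu hweak
  have hcu : ContinuousOn u U := (h1 n (E m) 1 u U hU).2 hu
  have hcd : ∀ i : Fin n, ContinuousOn (fun x => fderiv ℝ u x (bv i)) U := fun i =>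
    (h1 n (E m) 0 _ U hU).2 (hu.2 i)
  have hwe : WE U u (fun x => (-ContinuousLinearMap.id ℝ (E m))
      (∑ i : Fin n, A (u x) (fderiv ℝ u x (bv i)) (fderiv ℝ u x (bv i)))) := by
    intro ψ hψ
    have t1 : ∀ i : Fin n, TF U (fun x => fderiv ℝ ψ x (bv i)) := fun i =>
      (h6 n (E m) U u (bv i) hU hu.1 (hcd i) ψ hψ).1
    have t2 : ∀ i : Fin n, TF U (fun x => fderiv ℝ (fun y => fderiv ℝ ψ y (bv i)) x (bv i)) :=
      fun i => (h6 n (E m) U u (bv i) hU hu.1 (hcd i) _ (t1 i)).1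
    have t3 : ∀ i : Fin n, ∫ x, fderiv ℝ (fun y => fderiv ℝ ψ y (bv i)) x (bv i) • u x =
        - ∫ x, fderiv ℝ ψ x (bv i) • fderiv ℝ u x (bv i) := fun i =>
      (h6 n (E m) U u (bv i) hU hu.1 (hcd i) _ (t1 i)).2.2.2
    calc ∫ x, lp ψ x • u x
        = ∫ x, ∑ i : Fin n, fderiv ℝ (fun y => fderiv ℝ ψ y (bv i)) x (bv i) • u x := by
          refine integral_congr_ae (Eventually.of_forall fun x => ?_)
          exact Finset.sum_smul
      _ = ∑ i : Fin n, ∫ x, fderiv ℝ (fun y => fderiv ℝ ψ y (bv i)) x (bv i) • u x :=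
          integral_finsetSum _ fun i _ => int_smul _ _ U (t2 i) hcu
      _ = ∑ i : Fin n, - ∫ x, fderiv ℝ ψ x (bv i) • fderiv ℝ u x (bv i) :=
          Finset.sum_congr rfl fun i _ => t3 i
      _ = - ∫ x, ∑ i : Fin n, fderiv ℝ ψ x (bv i) • fderiv ℝ u x (bv i) := by
          rw [Finset.sum_neg_distrib, integral_finsetSum]
          exact fun i _ => int_smul _ _ U (t1 i) (hcd i)
      _ = - ∫ x, ψ x • ∑ i : Fin n, A (u x) (fderiv ℝ u x (bv i)) (fderiv ℝ u x (bv i)) := by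
          rw [hweak ψ hψ]
      _ = _ := by
          rw [← integral_neg]
          refine integral_congr_ae (Eventually.of_forall fun x => ?_)
          show -(ψ x • ∑ i : Fin n, A (u x) (fderiv ℝ u x (bv i)) (fderiv ℝ u x (bv i))) =
            ψ x • -(∑ i : Fin n, A (u x) (fderiv ℝ u x (bv i)) (fderiv ℝ u x (bv i)))
          rw [smul_neg]
  have hstep : ∀ j, HH (j + 1) u U → HH (j + 2) u U := by
    intro j hj
    have hj' : HH j u U := (h1 n (E m) j u U hU).1 hj
    have a1 : HH j (fun x => A (u x)) U := h4 n j U hU (E m) _ A u hA hj'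
    have a2 : ∀ i : Fin n, HH j (fun x => A (u x) (fderiv ℝ u x (bv i))) U := fun i =>
      h3 n (E m →L[ℝ] E m →L[ℝ] E m) (E m) (E m →L[ℝ] E m)
        (ContinuousLinearMap.id ℝ (E m →L[ℝ] E m →L[ℝ] E m)) j U _ _ hU a1 (hj.2 i)
    have a3 : ∀ i : Fin n,
        HH j (fun x => A (u x) (fderiv ℝ u x (bv i)) (fderiv ℝ u x (bv i))) U := fun i =>
      h3 n (E m →L[ℝ] E m) (E m) (E m)
        (ContinuousLinearMap.id ℝ (E m →L[ℝ] E m)) j U _ _ hU (a2 i) (hj.2 i)
    have a4 := (h2 n (E m) (E m) j U hU).2.1 n _ a3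
    have a5 := (h2 n (E m) (E m) j U hU).2.2 (-ContinuousLinearMap.id ℝ (E m)) _ a4
    exact h7 n (E m) U hU j u _ hcu a5 hwe
  have hall : ∀ j, HH (j + 1) u U := by
    intro j
    induction j with
    | zero => exact hu
    | succ j ih => exact hstep j ih
  refine (h5 n (E m) u U hU).1 fun j => ?_
  exact (h1 n (E m) j u U hU).1 (hall j)

end Pool.Agent.H96.RG
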